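import Pool.Agent.Helper68.BA.Defs

set_option autoImplicit false

noncomputable section

namespace Pool.Agent.Helper68.BA

open Finset

/-- residues of the auxiliary functions -/
def rho (b : ℝ) (m j : ℕ) : ℝ :=
  (∏ i ∈ range m, (2 * b + (i + 1) + (j + 1))) / ∏ i ∈ (range m).erase j, ((j : ℝ) - i)

/-- the value of the multiplier -/
def VV (b : ℝ) (m : ℕ) (β : ℝ) : ℝ := ∏ i ∈ range m, (β + (b + i + 1)) / (β - (b + i + 1))

theorem rho_succ (b : ℝ) (m j : ℕ) (hj : j < m) :
    rho b (m + 1) j = rho b m j * ((2 * b + (m + 1) + (j + 1)) / ((j : ℝ) - m)) := by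
  unfold rho
  have h1 : (range (m + 1)).erase j = insert m ((range m).erase j) := by
    ext i
    simp only [mem_erase, mem_range, mem_insert]
    omega
  rw [h1, Finset.prod_insert (by simp), prod_range_succ, mul_comm ((j : ℝ) - m),
    mul_div_mul_comm]

theorem rho_last (b : ℝ) (m : ℕ) :
    rho b (m + 1) m = 2 * (b + m + 1) * VV b m (b + m + 1) := by
  unfold rho VV
  have h1 : (range (m + 1)).erase m = range m := by
    ext i
    simp only [mem_erase, mem_range]
    omega
  rw [h1, prod_range_succ, prod_div_distrib, mul_comm, ← mul_div_assoc]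
  congr 1
  · congr 1
    · ring
    · refine prod_congr rfl (fun i _ => by ring)
  · refine prod_congr rfl (fun i _ => by ring)

theorem eta_closed (b : ℝ) (m : ℕ) : ∀ (β u : ℝ), (∀ i : ℕ, i < m → β ≠ b + i + 1) →
    eta b m β u = VV b m β * Real.exp (-β * u) +
      ∑ j ∈ range m, rho b m j / ((b + j + 1) - β) * Real.exp (-(b + j + 1) * u) := by
  induction m with
  | zero => intro β u _; simp [eta, VV]
  | succ m ih =>
    intro β u hβ
    have hβ' : ∀ i : ℕ, i < m → β ≠ b + i + 1 := fun i hi => hβ i (by omega)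
    have hc : ∀ i : ℕ, i < m → (b + m + 1 : ℝ) ≠ b + i + 1 := by
      intro i hi h
      have : (m : ℝ) = i := by linarith
      have := Nat.cast_injective this
      omega
    have hβc : β - (b + m + 1) ≠ 0 := sub_ne_zero.2 (hβ m (by omega))
    rw [eta, ih β u hβ', ih (b + m + 1) u hc, sum_range_succ]
    have hV : VV b (m + 1) β = VV b m β * ((β + (b + m + 1)) / (β - (b + m + 1))) := by
      unfold VV; rw [prod_range_succ]
    rw [hV, rho_last]
    have hsum : ∑ j ∈ range m, rho b (m + 1) j / ((b + j + 1) - β) *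
        Real.exp (-(b + j + 1) * u) =
        ((β + (b + m + 1)) * ∑ j ∈ range m, rho b m j / ((b + j + 1) - β) *
          Real.exp (-(b + j + 1) * u) - 2 * (b + m + 1) *
          ∑ j ∈ range m, rho b m j / ((b + j + 1) - (b + m + 1)) *
            Real.exp (-(b + j + 1) * u)) / (β - (b + m + 1)) := by
      rw [mul_sum, mul_sum, ← sum_sub_distrib, sum_div]
      refine sum_congr rfl (fun j hj => ?_)
      have hj' := mem_range.1 hj
      rw [rho_succ b m j hj']
      have h1 : (b + j + 1) - β ≠ 0 := fun h => hβ' j hj' (by linarith)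
      have h2 : (j : ℝ) - m ≠ 0 := fun h => hc j hj' (by linarith)
      have h3 : (b + j + 1 : ℝ) - (b + m + 1) = j - m := by ring
      rw [h3]
      field_simp
      ring
    rw [hsum]
    have h4 : (b + m + 1 : ℝ) - β ≠ 0 := fun h => hβc (by linarith)
    have h5 : (b + (m : ℝ) + 1) - β = -(β - (b + m + 1)) := by ring
    rw [h5]
    field_simp
    ring

theorem kk_closed (b : ℝ) (m : ℕ) (u : ℝ) :
    kk b m u = ∑ j ∈ range m, rho b m j * Real.exp (-(b + j + 1) * u) := by
  induction m with
  | zero => simp [kk]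
  | succ m ih =>
    have hc : ∀ i : ℕ, i < m → (b + m + 1 : ℝ) ≠ b + i + 1 := by
      intro i hi h
      have : (m : ℝ) = i := by linarith
      have := Nat.cast_injective this
      omega
    rw [kk, ih, eta_closed b m (b + m + 1) u hc, sum_range_succ, rho_last]
    have hsum : ∑ j ∈ range m, rho b (m + 1) j * Real.exp (-(b + j + 1) * u) =
        ∑ j ∈ range m, rho b m j * Real.exp (-(b + j + 1) * u) + 2 * (b + m + 1) *
          ∑ j ∈ range m, rho b m j / ((b + j + 1) - (b + m + 1)) *
            Real.exp (-(b + j + 1) * u) := by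
      rw [mul_sum, ← sum_add_distrib]
      refine sum_congr rfl (fun j hj => ?_)
      have hj' := mem_range.1 hj
      rw [rho_succ b m j hj']
      have h2 : (j : ℝ) - m ≠ 0 := fun h => hc j hj' (by linarith)
      have h3 : (b + j + 1 : ℝ) - (b + m + 1) = j - m := by ring
      rw [h3]
      field_simp
      ring
    rw [hsum]
    ring

theorem rc_zero_eq (b : ℝ) (m : ℕ) :
    rc b (m + 1) 0 = (2 * b + m + 1) * VV b m b := by
  unfold rc VV
  have h1 : ∏ i ∈ (range (m + 1)).erase 0, (((0 : ℕ) : ℝ) - i) =
      ∏ i ∈ range m, (b - (b + i + 1)) := by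
    have h2 : (range (m + 1)).erase 0 = (range m).image (fun i => i + 1) := by
      ext i
      simp only [mem_erase, mem_range, mem_image]
      constructor
      · rintro ⟨h, h'⟩
        exact ⟨i - 1, by omega, by omega⟩
      · rintro ⟨a, ha, rfl⟩
        omega
    rw [h2, prod_image (fun a _ c _ h => by simpa using h)]
    refine prod_congr rfl (fun i _ => ?_)
    push_cast
    ring
  rw [h1, prod_range_succ, prod_div_distrib, mul_comm (2 * b + (m : ℝ) + 1), ← mul_div_right_comm]
  congr 1
  congr 1
  · refine prod_congr rfl (fun i _ => ?_)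
    push_cast
    ring
  · push_cast
    ring

theorem rc_succ_eq (b : ℝ) (m j : ℕ) (hj : j < m) :
    rc b (m + 1) (j + 1) = rho b m j * ((2 * b + m + j + 2) / (j + 1)) := by
  unfold rc rho
  have h1 : ∏ i ∈ (range (m + 1)).erase (j + 1), ((((j + 1 : ℕ)) : ℝ) - i) =
      (∏ i ∈ (range m).erase j, ((j : ℝ) - i)) * (j + 1) := by
    have h2 : (range (m + 1)).erase (j + 1) =
        insert 0 (((range m).erase j).image (fun i => i + 1)) := by
      ext i
      simp only [mem_erase, mem_range, mem_image, mem_insert]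
      constructor
      · rintro ⟨h, h'⟩
        rcases Nat.eq_zero_or_pos i with h0 | h0
        · exact Or.inl h0
        · exact Or.inr ⟨i - 1, by omega, by omega⟩
      · rintro (h | ⟨a, ha, rfl⟩)
        · omega
        · omega
    rw [h2, prod_insert (by simp), prod_image (fun a _ c _ h => by simpa using h), mul_comm]
    congr 1
    · refine prod_congr rfl (fun i _ => ?_)
      push_cast
      ring
    · push_cast
      ring
  rw [h1, prod_range_succ, mul_div_mul_comm]
  congr 1
  · congr 1
    refine prod_congr rfl (fun i _ => ?_)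
    push_cast
    ring
  · congr 1
    push_cast
    ring

theorem ker_eq (b : ℝ) (hb : 0 ≤ b) (m : ℕ) (u : ℝ) :
    ker b (m + 1) b u = kk b m u + (2 * b + m + 1) * eta b m b u := by
  have hc : ∀ i : ℕ, i < m → b ≠ b + i + 1 := by
    intro i _ h
    have : (0 : ℝ) ≤ i := Nat.cast_nonneg i
    linarith
  rw [kk_closed, eta_closed b m b u hc, ker, sum_range_succ', rc_zero_eq, mul_add, mul_sum]
  have hsum : ∑ j ∈ range m, rc b (m + 1) (j + 1) * Real.exp (-(b + ((j + 1 : ℕ) : ℝ)) * u) =
      ∑ j ∈ range m, rho b m j * Real.exp (-(b + j + 1) * u) +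
      ∑ j ∈ range m, (2 * b + m + 1) * (rho b m j / ((b + j + 1) - b) *
        Real.exp (-(b + j + 1) * u)) := by
    rw [← sum_add_distrib]
    refine sum_congr rfl (fun j hj => ?_)
    rw [rc_succ_eq b m j (mem_range.1 hj)]
    have h1 : (j : ℝ) + 1 ≠ 0 := by positivity
    have h2 : (b + j + 1 : ℝ) - b = j + 1 := by ring
    have h3 : (-(b + ((j + 1 : ℕ) : ℝ)) * u) = -(b + j + 1) * u := by push_cast; ring
    rw [h2, h3]
    field_simp
    ring
  rw [hsum]
  have h4 : (-(b + ((0 : ℕ) : ℝ)) * u) = -b * u := by push_cast; ring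
  rw [h4]
  ring

end Pool.Agent.Helper68.BA
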